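import Mathlib
import Pool.Agent.Y16.AF.StmP
import Pool.Agent.Y274.YMTan

open MeasureTheory Matrix
open scoped Matrix.Norms.Frobenius Topology
open Pool.Agent.Y16.Gluon Pool.Agent.Y16.AF

namespace Pool.Agent.Y349.AF

variable {N n L : ℕ} {G : Subgroup (UU N)}

lemma norm_sq (A : Mt N) : ‖A‖ ^ 2 = ∑ i, ∑ j, ‖A i j‖ ^ 2 := by
  rw [frobenius_norm_def, ← Real.sqrt_eq_rpow, Real.sq_sqrt]
  · refine Finset.sum_congr rfl fun i _ => Finset.sum_congr rfl fun j _ => ?_
    exact Real.rpow_natCast _ 2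
  · exact Finset.sum_nonneg fun i _ => Finset.sum_nonneg fun j _ => Real.rpow_nonneg (norm_nonneg _) _

lemma tr_eq (A B : Mt N) : (trace (Aᴴ * B)).re = ∑ j, ∑ i, (star (A i j) * B i j).re := by
  rw [trace, Complex.re_sum]
  refine Finset.sum_congr rfl fun j _ => ?_
  rw [diag_apply, mul_apply, Complex.re_sum]
  rfl

lemma nsq (A : Mt N) : ‖A‖ ^ 2 = (trace (Aᴴ * A)).re := by
  rw [norm_sq, tr_eq, Finset.sum_comm]
  refine Finset.sum_congr rfl fun i _ => Finset.sum_congr rfl fun j _ => ?_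
  rw [Complex.star_def, ← Complex.normSq_eq_conj_mul_self, Complex.ofReal_re,
    Complex.normSq_eq_norm_sq]

lemma ip_le (A B : Mt N) : |(trace (Aᴴ * B)).re| ≤ ‖A‖ * ‖B‖ := by
  have h1 : |(trace (Aᴴ * B)).re| ≤ ∑ x : Fin N × Fin N, ‖A x.2 x.1‖ * ‖B x.2 x.1‖ := by
    rw [tr_eq, ← Fintype.sum_prod_type' (f := fun j i => (star (A i j) * B i j).re)]
    refine (Finset.abs_sum_le_sum_abs _ _).trans (Finset.sum_le_sum fun x _ => ?_)
    refine (Complex.abs_re_le_norm _).trans ?_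
    rw [norm_mul, norm_star]
  have h2 := Finset.sum_mul_sq_le_sq_mul_sq (Finset.univ : Finset (Fin N × Fin N))
    (fun x => ‖A x.2 x.1‖) (fun x => ‖B x.2 x.1‖)
  have e : ∀ M : Mt N, ∑ x : Fin N × Fin N, ‖M x.2 x.1‖ ^ 2 = ‖M‖ ^ 2 := by
    intro M
    rw [norm_sq, Finset.sum_comm, ← Fintype.sum_prod_type' (f := fun j i => ‖M i j‖ ^ 2)]
  rw [e, e, ← mul_pow] at h2
  refine h1.trans ?_
  exact le_of_sq_le_sq h2 (by positivity)

lemma mt_mul (g h : G) : mt (g * h) = mt g * mt h := rfl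

lemma mt_one : mt (1 : G) = 1 := rfl

lemma mt_inv (g : G) : mt g⁻¹ = (mt g)ᴴ := rfl

lemma mt_mul_ct (g : G) : mt g * (mt g)ᴴ = 1 := by
  rw [← mt_inv, ← mt_mul, mul_inv_cancel, mt_one]

lemma norm_mul_mt (A : Mt N) (g : G) : ‖A * mt g‖ = ‖A‖ := by
  have h : ‖A * mt g‖ ^ 2 = ‖A‖ ^ 2 := by
    rw [nsq, nsq, conjTranspose_mul, trace_mul_comm]
    rw [← mul_assoc, mul_assoc A, mt_mul_ct, mul_one, trace_mul_comm]
  exact (sq_eq_sq₀ (norm_nonneg _) (norm_nonneg _)).mp h

lemma norm_mt_mul_sub (g h : G) : ‖mt (g * h) - 1‖ ≤ ‖mt g - 1‖ + ‖mt h - 1‖ := by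
  have e : mt (g * h) - 1 = (mt g - 1) * mt h + (mt h - 1) := by
    rw [mt_mul]; noncomm_ring
  rw [e]
  refine (norm_add_le _ _).trans ?_
  rw [norm_mul_mt]

lemma norm_mt_inv_sub (g : G) : ‖mt g⁻¹ - 1‖ = ‖mt g - 1‖ := by
  rw [mt_inv, ← frobenius_norm_conjTranspose (mt g - 1), conjTranspose_sub, conjTranspose_one]

lemma norm_four (a b c d : G) (r : ℝ) (ha : ‖mt a - 1‖ ≤ r) (hb : ‖mt b - 1‖ ≤ r)
    (hc : ‖mt c - 1‖ ≤ r) (hd : ‖mt d - 1‖ ≤ r) :
    ‖mt a * mt b * mt c * mt d - 1 - ((mt a - 1) + (mt b - 1) + (mt c - 1) + (mt d - 1))‖ ≤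
      6 * r ^ 2 := by
  have hr : 0 ≤ r := (norm_nonneg _).trans ha
  have e : mt a * mt b * mt c * mt d - 1 - ((mt a - 1) + (mt b - 1) + (mt c - 1) + (mt d - 1)) =
      (mt a - 1) * (mt (b * (c * d)) - 1) + (mt b - 1) * (mt (c * d) - 1) +
        (mt c - 1) * (mt d - 1) := by
    rw [mt_mul, mt_mul]; noncomm_ring
  rw [e]
  have h1 : ‖mt (c * d) - 1‖ ≤ 2 * r := (norm_mt_mul_sub c d).trans (by linarith)
  have h2 : ‖mt (b * (c * d)) - 1‖ ≤ 3 * r := (norm_mt_mul_sub b _).trans (by linarith)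
  have h3 : ‖(mt a - 1) * (mt (b * (c * d)) - 1)‖ ≤ r * (3 * r) :=
    (norm_mul_le _ _).trans (mul_le_mul ha h2 (norm_nonneg _) hr)
  have h4 : ‖(mt b - 1) * (mt (c * d) - 1)‖ ≤ r * (2 * r) :=
    (norm_mul_le _ _).trans (mul_le_mul hb h1 (norm_nonneg _) hr)
  have h5 : ‖(mt c - 1) * (mt d - 1)‖ ≤ r * r :=
    (norm_mul_le _ _).trans (mul_le_mul hc hd (norm_nonneg _) hr)
  refine (norm_add₃_le).trans ?_
  nlinarith

lemma skewX (B : LieBasis G n) (a : Fin n) : (B.X a)ᴴ = -B.X a :=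
  Pool.Agent.Y274.YMTan.skew (G := G) (B.X a) fun t => ⟨B.ex a t, B.ex_eq a t⟩

lemma normX (B : LieBasis G n) (a : Fin n) : ‖B.X a‖ = 1 := by
  have h : ‖B.X a‖ ^ 2 = 1 ^ 2 := by
    rw [nsq, B.orth, if_pos rfl, one_pow]
  exact (sq_eq_sq₀ (norm_nonneg _) zero_le_one).mp h

lemma trX (B : LieBasis G n) (a : Fin n) : (trace (B.X a)ᴴ).re = 0 := by
  have h1 : (trace (B.X a)ᴴ).re = (trace (B.X a)).re := by
    rw [trace_conjTranspose, Complex.star_def, Complex.conj_re]
  have h2 : (trace (B.X a)ᴴ).re = -(trace (B.X a)).re := by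
    rw [skewX, trace_neg, Complex.neg_re]
  linarith

lemma co_eq (B : LieBasis G n) (g : G) (a : Fin n) :
    co B g a = (trace ((B.X a)ᴴ * (mt g - 1))).re := by
  rw [mul_sub, mul_one, trace_sub, Complex.sub_re, trX, sub_zero]
  rfl

lemma co_one (B : LieBasis G n) (a : Fin n) : co B (1 : G) a = 0 := by
  rw [co_eq, mt_one, sub_self, mul_zero, trace_zero, Complex.zero_re]

lemma co_inv (B : LieBasis G n) (g : G) (a : Fin n) : co B g⁻¹ a = -co B g a := by
  have h : (trace ((B.X a)ᴴ * (mt g)ᴴ)).re = (trace (B.X a * mt g)).re := by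
    rw [← conjTranspose_mul, trace_conjTranspose, Complex.star_def, Complex.conj_re,
      trace_mul_comm]
  rw [co, co, mt_inv, h, skewX, neg_mul, trace_neg, Complex.neg_re, neg_neg]

lemma co_le (B : LieBasis G n) (g : G) (a : Fin n) : |co B g a| ≤ ‖mt g - 1‖ := by
  rw [co_eq]
  refine (ip_le _ _).trans ?_
  rw [normX, one_mul]

/-- The expansion of the summand. -/
lemma four_le (B : LieBasis G n) (a : Fin n) (g : Fin 4 → G) (r : ℝ)
    (hg : ∀ i, ‖mt (g i) - 1‖ ≤ r) (σ : Equiv.Perm (Fin 4)) :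
    |(trace ((B.X a)ᴴ * (mt (g (σ 0)) * mt (g (σ 1)) * mt (g (σ 2)) * mt (g (σ 3))))).re -
      ∑ j, co B (g j) a| ≤ 6 * r ^ 2 := by
  have hs : ∑ j, co B (g j) a = ∑ j, co B (g (σ j)) a :=
    (Equiv.sum_comp σ fun j => co B (g j) a).symm
  have e : (trace ((B.X a)ᴴ * (mt (g (σ 0)) * mt (g (σ 1)) * mt (g (σ 2)) *
      mt (g (σ 3))))).re - ∑ j, co B (g j) a =
      (trace ((B.X a)ᴴ * (mt (g (σ 0)) * mt (g (σ 1)) * mt (g (σ 2)) * mt (g (σ 3)) - 1 -
        ((mt (g (σ 0)) - 1) + (mt (g (σ 1)) - 1) + (mt (g (σ 2)) - 1) +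
          (mt (g (σ 3)) - 1))))).re := by
    rw [hs, Fin.sum_univ_four, co_eq, co_eq, co_eq, co_eq]
    simp only [mul_sub (B.X a)ᴴ, mul_add (B.X a)ᴴ, mul_one, trace_add, trace_sub, Complex.add_re,
      Complex.sub_re, trX]
    ring
  rw [e]
  refine (ip_le _ _).trans ?_
  rw [normX, one_mul]
  exact norm_four _ _ _ _ r (hg _) (hg _) (hg _) (hg _)

/-- Rotations. -/
def rot (k : Fin 4) : Equiv.Perm (Fin 4) := Equiv.addRight k

/-- The summand of `GS`. -/
noncomputable def sm (B : LieBasis G n) (U : Links L → G) (p : Pq L) (l : Fin 4) (a : Fin n) : ℝ :=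
  -(trace ((if l = 0 then dl B U p 0 a else mt (lg (fx U) p 0)) *
        (if l = 1 then dl B U p 1 a else mt (lg (fx U) p 1)) *
        (if l = 2 then dl B U p 2 a else mt (lg (fx U) p 2)) *
        (if l = 3 then dl B U p 3 a else mt (lg (fx U) p 3)))).re

lemma cyc_true (X : Mt N) (h : Fin 4 → Mt N) (l : Fin 4) :
    -(trace ((if l = 0 then X * h 0 else h 0) * (if l = 1 then X * h 1 else h 1) *
      (if l = 2 then X * h 2 else h 2) * (if l = 3 then X * h 3 else h 3))).re =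
    (trace (-X * (h (rot l 0) * h (rot l 1) * h (rot l 2) * h (rot l 3)))).re := by
  fin_cases l
  · simp [rot, mul_assoc]
  · simp [rot, mul_assoc]
    rw [trace_mul_comm]
    simp only [mul_assoc]
  · simp [rot, mul_assoc]
    rw [trace_mul_comm]
    simp only [mul_assoc]
    rw [trace_mul_comm]
    simp only [mul_assoc]
  · simp [rot, mul_assoc]
    rw [trace_mul_comm]
    simp only [mul_assoc]
    rw [trace_mul_comm]
    simp only [mul_assoc]
    rw [trace_mul_comm]
    simp only [mul_assoc]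

lemma cyc_false (X : Mt N) (h : Fin 4 → Mt N) (l : Fin 4) :
    -(trace ((if l = 0 then -(h 0 * X) else h 0) * (if l = 1 then -(h 1 * X) else h 1) *
      (if l = 2 then -(h 2 * X) else h 2) * (if l = 3 then -(h 3 * X) else h 3))).re =
    -(trace (-X * (h (rot (l + 1) 0) * h (rot (l + 1) 1) * h (rot (l + 1) 2) *
      h (rot (l + 1) 3)))).re := by
  fin_cases l
  · simp [rot, mul_assoc]
    rw [trace_mul_comm]
    simp only [mul_assoc]
  · simp [rot, mul_assoc]
    rw [trace_mul_comm]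
    simp only [mul_assoc]
    rw [trace_mul_comm]
    simp only [mul_assoc]
  · simp [rot, mul_assoc]
    rw [trace_mul_comm]
    simp only [mul_assoc]
    rw [trace_mul_comm]
    simp only [mul_assoc]
    rw [trace_mul_comm]
    simp only [mul_assoc]
  · simp [rot, mul_assoc]
    rw [trace_mul_comm]
    simp only [mul_assoc]
    rw [trace_mul_comm]
    simp only [mul_assoc]
    rw [trace_mul_comm]
    simp only [mul_assoc]
    rw [trace_mul_comm]
    simp only [mul_assoc]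

lemma sm_le (B : LieBasis G n) (U : Links L → G) (p : Pq L) (l : Fin 4) (a : Fin n) (r : ℝ)
    (hr : ∀ i, ‖mt (lg (fx U) p i) - 1‖ ≤ r) :
    |sm B U p l a - sg p.2.2 l * ∑ j, co B (lg (fx U) p j) a| ≤ 6 * r ^ 2 := by
  have key : ∀ k : Fin 4, ∀ T : ℝ, T = sg p.2.2 l *
      (trace ((B.X a)ᴴ * (mt (lg (fx U) p (rot k 0)) * mt (lg (fx U) p (rot k 1)) *
        mt (lg (fx U) p (rot k 2)) * mt (lg (fx U) p (rot k 3))))).re →
      |T - sg p.2.2 l * ∑ j, co B (lg (fx U) p j) a| ≤ 6 * r ^ 2 := by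
    intro k T hT
    have h := four_le B a (fun i => lg (fx U) p i) r hr (rot k)
    rw [hT, ← mul_sub, abs_mul]
    have hs : |sg p.2.2 l| = 1 := by
      rw [sg]; split_ifs <;> simp
    rw [hs, one_mul]
    exact h
  cases hb : sb p.2.2 l
  · apply key (l + 1)
    have hsg : sg p.2.2 l = -1 := by rw [sg, hb]; simp
    rw [hsg, skewX, neg_one_mul]
    refine Eq.trans ?_ (cyc_false (B.X a) (fun i => mt (lg (fx U) p i)) l)
    have e : ∀ i : Fin 4, (if l = i then dl B U p i a else mt (lg (fx U) p i)) =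
        if l = i then -(mt (lg (fx U) p i) * B.X a) else mt (lg (fx U) p i) := by
      intro i
      by_cases h : l = i
      · subst h
        rw [if_pos rfl, if_pos rfl, dl, hb, if_neg (by simp)]
      · rw [if_neg h, if_neg h]
    rw [sm, e, e, e, e]
  · apply key l
    have hsg : sg p.2.2 l = 1 := by rw [sg, hb]; simp
    rw [hsg, skewX, one_mul]
    refine Eq.trans ?_ (cyc_true (B.X a) (fun i => mt (lg (fx U) p i)) l)
    have e : ∀ i : Fin 4, (if l = i then dl B U p i a else mt (lg (fx U) p i)) =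
        if l = i then B.X a * mt (lg (fx U) p i) else mt (lg (fx U) p i) := by
      intro i
      by_cases h : l = i
      · subst h
        rw [if_pos rfl, if_pos rfl, dl, hb, if_pos rfl]
      · rw [if_neg h, if_neg h]
    rw [sm, e, e, e, e]

/-- The links of the legs. -/
lemma lg_cases (U : Links L → G) (p : Pq L) (j : Fin 4) :
    lg (fx U) p j = 1 ∨ ∃ w : Dy L, lv p.2.1 p.2.2 j = some w.1.2 ∧ p.1 + ls p.2.2 j = w.1.1 ∧
      lg (fx U) p j = if sb p.2.2 j then U w.1 else (U w.1)⁻¹ := by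
  cases hv : lv p.2.1 p.2.2 j with
  | none => left; rw [lg, hv]
  | some b =>
    by_cases hd : dyn (p.1 + ls p.2.2 j, b)
    · right
      refine ⟨⟨(p.1 + ls p.2.2 j, b), hd⟩, rfl, rfl, ?_⟩
      rw [lg, hv]
      simp only [fx, if_pos hd]
    · left
      rw [lg, hv]
      simp only [fx, if_neg hd, inv_one, ite_self]

lemma single_le [NeZero L] (U : Links L → G) (w : Dy L) : ‖mt (U w.1) - 1‖ ≤ rr U :=
  Finset.single_le_sum (f := fun w : Dy L => ‖mt (U w.1) - 1‖) (fun _ _ => norm_nonneg _)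
    (Finset.mem_univ w)

lemma rr_nonneg [NeZero L] (U : Links L → G) : 0 ≤ rr U :=
  Finset.sum_nonneg fun _ _ => norm_nonneg _

lemma lg_le [NeZero L] (U : Links L → G) (p : Pq L) (j : Fin 4) :
    ‖mt (lg (fx U) p j) - 1‖ ≤ rr U := by
  rcases lg_cases U p j with h | ⟨w, -, -, h⟩
  · rw [h, mt_one, sub_self, norm_zero]; exact rr_nonneg U
  · rw [h]
    split_ifs
    · exact single_le U w
    · rw [norm_mt_inv_sub]; exact single_le U w

lemma co_lg [NeZero L] (B : LieBasis G n) (U : Links L → G) (p : Pq L) (j : Fin 4) (a : Fin n) :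
    ∑ w : Dy L, inc p j w.1 * co B (U w.1) a = co B (lg (fx U) p j) a := by
  cases hv : lv p.2.1 p.2.2 j with
  | none =>
    have h1 : lg (fx U) p j = 1 := by rw [lg, hv]
    rw [h1, co_one]
    refine Finset.sum_eq_zero fun w _ => ?_
    rw [inc, hv, if_neg (by simp), zero_mul]
  | some b =>
    by_cases hd : dyn (p.1 + ls p.2.2 j, b)
    · rw [Finset.sum_eq_single (⟨(p.1 + ls p.2.2 j, b), hd⟩ : Dy L)]
      · have h1 : lg (fx U) p j = if sb p.2.2 j then U (p.1 + ls p.2.2 j, b) else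
            (U (p.1 + ls p.2.2 j, b))⁻¹ := by
          rw [lg, hv]
          simp only [fx, if_pos hd]
        rw [h1, inc, if_pos ⟨hv, rfl⟩, sg]
        split_ifs
        · rw [one_mul]
        · rw [co_inv, neg_one_mul]
      · intro w _ hw
        rw [inc, if_neg, zero_mul]
        rintro ⟨h1, h2⟩
        apply hw
        rw [hv] at h1
        apply Subtype.ext
        exact Prod.ext h2.symm (Option.some.inj h1).symm
      · intro h; exact absurd (Finset.mem_univ _) h
    · have h1 : lg (fx U) p j = 1 := by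
        rw [lg, hv]
        simp only [fx, if_neg hd, inv_one, ite_self]
      rw [h1, co_one]
      refine Finset.sum_eq_zero fun w _ => ?_
      rw [inc, if_neg, zero_mul]
      rintro ⟨h1, h2⟩
      rw [hv] at h1
      apply hd
      have : (p.1 + ls p.2.2 j, b) = w.1 := Prod.ext h2 (Option.some.inj h1)
      rw [this]
      exact w.2

lemma grad_le [NeZero L] (B : LieBasis G n) (U : Links L → G) (i : Dy L × Fin n) :
    |GS B U i - ∑ w : Dy L, rs (Hm (L := L)) i.1 w * cA B U (w, i.2)| ≤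
      144 * (L : ℝ) ^ 4 * rr U ^ 2 := by
  have e1 : ∑ w : Dy L, rs (Hm (L := L)) i.1 w * cA B U (w, i.2) =
      ∑ p : Pq L, ∑ l, inc p l i.1.1 * ∑ j, co B (lg (fx U) p j) i.2 := by
    have h1 : ∀ w : Dy L, rs (Hm (L := L)) i.1 w * cA B U (w, i.2) =
        ∑ p : Pq L, ∑ l, ∑ j, inc p l i.1.1 * (inc p j w.1 * co B (U w.1) i.2) := by
      intro w
      rw [rs, of_apply, Hm, cA]
      simp only [Finset.sum_mul]
      refine Finset.sum_congr rfl fun p _ => Finset.sum_congr rfl fun l _ =>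
        Finset.sum_congr rfl fun j _ => ?_
      ring
    rw [Finset.sum_congr rfl fun w _ => h1 w, Finset.sum_comm]
    refine Finset.sum_congr rfl fun p _ => ?_
    rw [Finset.sum_comm]
    refine Finset.sum_congr rfl fun l _ => ?_
    rw [Finset.sum_comm, Finset.mul_sum]
    refine Finset.sum_congr rfl fun j _ => ?_
    rw [← Finset.mul_sum, co_lg]
  have e2 : GS B U i = ∑ p : Pq L, ∑ l : Fin 4,
      if lv p.2.1 p.2.2 l = some i.1.1.2 ∧ p.1 + ls p.2.2 l = i.1.1.1 then sm B U p l i.2 else 0 :=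
    rfl
  rw [e1, e2, ← Finset.sum_sub_distrib]
  refine (Finset.abs_sum_le_sum_abs _ _).trans ?_
  have h2 : ∀ p : Pq L, |(∑ l : Fin 4, if lv p.2.1 p.2.2 l = some i.1.1.2 ∧
      p.1 + ls p.2.2 l = i.1.1.1 then sm B U p l i.2 else 0) -
      ∑ l, inc p l i.1.1 * ∑ j, co B (lg (fx U) p j) i.2| ≤ 24 * rr U ^ 2 := by
    intro p
    rw [← Finset.sum_sub_distrib]
    refine (Finset.abs_sum_le_sum_abs _ _).trans ?_
    have h3 : ∀ l ∈ (Finset.univ : Finset (Fin 4)), |(if lv p.2.1 p.2.2 l = some i.1.1.2 ∧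
      p.1 + ls p.2.2 l = i.1.1.1 then sm B U p l i.2 else 0) -
      inc p l i.1.1 * ∑ j, co B (lg (fx U) p j) i.2| ≤ 6 * rr U ^ 2 := by
      intro l _
      rw [inc]
      split_ifs with h
      · exact sm_le B U p l i.2 (rr U) (lg_le U p)
      · rw [zero_mul, sub_zero, abs_zero]; positivity
    refine (Finset.sum_le_sum h3).trans ?_
    rw [Finset.sum_const, Finset.card_univ, Fintype.card_fin, nsmul_eq_mul]
    push_cast
    linarith
  refine (Finset.sum_le_sum fun p _ => h2 p).trans ?_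
  rw [Finset.sum_const, Finset.card_univ, nsmul_eq_mul]
  have hc : ((Fintype.card (Pq L) : ℕ) : ℝ) = 6 * (L : ℝ) ^ 4 := by
    rw [Fintype.card_prod, Fintype.card_prod, Fintype.card_sum, Fintype.card_fin, Fintype.card_fin,
      Fintype.card_fun, Fintype.card_fin, ZMod.card]
    push_cast
    ring
  rw [hc]
  apply le_of_eq
  ring

theorem af_tayg : Pool.Agent.Y16.AF.S_TAYG := by
  intro N n G _ B
  refine ⟨144, fun L _ _ U i => ⟨grad_le B U i, ?_, fun j => ?_⟩⟩
  · exact (co_le B _ _).trans (single_le U i.1)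
  · have hr := rr_nonneg U
    by_cases h : i.1 = j.1
    · have e : dA B U i j - (if i = j then (1 : ℝ) else 0) =
          (trace ((B.X j.2)ᴴ * (B.X i.2 * (mt (U i.1.1) - 1)))).re := by
        have h2 : (if i = j then (1 : ℝ) else 0) = (trace ((B.X j.2)ᴴ * B.X i.2)).re := by
          rw [B.orth]
          by_cases h3 : j.2 = i.2
          · rw [if_pos h3, if_pos (Prod.ext h h3.symm)]
          · rw [if_neg h3, if_neg]
            intro h4
            exact h3 (by rw [h4])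
        rw [dA, if_pos h, h2, mul_sub, mul_sub, mul_one, trace_sub, Complex.sub_re]
      rw [e]
      refine (ip_le _ _).trans ?_
      rw [normX, one_mul]
      refine (norm_mul_le _ _).trans ?_
      rw [normX, one_mul]
      refine (single_le U i.1).trans ?_
      linarith
    · rw [dA, if_neg h, if_neg (fun h2 => h (by rw [h2])), sub_zero, abs_zero]
      positivity

end Pool.Agent.Y349.AF
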